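import Pool.Agent.Helper73.Dil.Surf
import Pool.Agent.Helper53.Dil.Area

/-!
# S_SOLU: uniqueness of solutions
-/

open Topology Set Filter MeasureTheory Metric

namespace Pool.Agent.Helper74.Dil

universe u

open Pool.Agent.Helper73.Dil Pool.Agent.Helper73.Dil.DilationSurface

/-- the coefficient `deriv w (tc t z)` is continuous -/
theorem cont_deriv_tc {t : ℂ} (ht : t ∈ UH) {w : ℂ → ℂ}
    (hw : DifferentiableOn ℂ w (tc t '' B1)) :
    ContinuousOn (fun z => deriv w (tc t z)) B1 := by
  have h1 : ContinuousOn (deriv w) (tc t '' B1) :=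
    (hw.deriv (Helper53.Dil.om_open ht 0 1)).continuousOn
  exact h1.comp (Helper53.Dil.tc_cont t).continuousOn (fun z hz => ⟨z, hz, rfl⟩)

/-- continuous functions which agree almost everywhere on `B1` agree on `B1` -/
theorem eqOn_of_ae {f g : ℂ → ℂ} (hf : ContinuousOn f B1) (hg : ContinuousOn g B1)
    (h : f =ᵐ[volume.restrict B1] g) : EqOn f g B1 :=
  MeasureTheory.Measure.eqOn_open_of_ae_eq h isOpen_ball hf hg

/-- derivatives in the plane of `Re w (tc t z)` -/
theorem hasDeriv_re {t : ℂ} (ht : t ∈ UH) {w : ℂ → ℂ}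
    (hw : DifferentiableOn ℂ w (tc t '' B1)) {z : ℂ} (hz : z ∈ B1) (v : ℂ) :
    HasDerivAt (fun s : ℝ => (w (tc t (z + s * v))).re) ((deriv w (tc t z) * tc t v).re) 0 := by
  have h1 : HasDerivAt w (deriv w (tc t z)) (tc t z) :=
    ((hw (tc t z) ⟨z, hz, rfl⟩).differentiableAt
      ((Helper53.Dil.om_open ht 0 1).mem_nhds ⟨z, hz, rfl⟩)).hasDerivAt
  have h2 : HasDerivAt (fun s : ℝ => tc t z + s * tc t v) (tc t v) 0 := by
    have h3 : HasDerivAt (fun s : ℝ => (s : ℂ)) 1 0 := Complex.ofRealCLM.hasDerivAt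
    simpa using (h3.mul_const (tc t v)).const_add (tc t z)
  have h3 : (fun s : ℝ => w (tc t (z + s * v))) = w ∘ fun s : ℝ => tc t z + s * tc t v := by
    funext s
    simp only [Function.comp]
    rw [Helper53.Dil.tc_add, Helper53.Dil.tc_smul]
  have h4 : HasDerivAt (fun s : ℝ => w (tc t (z + s * v))) (deriv w (tc t z) * tc t v) 0 := by
    rw [h3]
    have h5 : HasDerivAt w (deriv w (tc t z)) (tc t z + ((0 : ℝ) : ℂ) * tc t v) := by simpa using h1
    exact HasDerivAt.comp_of_eq (0 : ℝ) h5 h2 rfl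
  exact (Complex.reCLM.hasFDerivAt.comp_hasDerivAt (0 : ℝ) h4)

theorem tc_one (t : ℂ) : tc t 1 = 1 := by simp [tc]

theorem tc_I (t : ℂ) : tc t Complex.I = t := by simp [tc]

theorem add_conj_eq {a b : ℂ} (h : a.re = b.re) :
    a + (starRingEnd ℂ) a = b + (starRingEnd ℂ) b := by
  rw [Complex.add_conj, Complex.add_conj, h]

theorem sb_SOLU (hconn : SB_CONN.{u}) (hball : SB_BALL.{u}) (hlocl : SB_LOCL.{u}) :
    SB_SOLU.{u} := by
  intro X _ _ _ _ _ _ D R S A hA
  refine ⟨?_, ?_⟩
  · intro t c f f' ht hf hf'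
    have hloc : ∀ b, D.IsBall b → ∃ k : ℝ, ∀ x ∈ b.source, f x - f' x = k := by
      intro b hb
      obtain ⟨w, hw, hwc, hwf⟩ := hf b hb
      obtain ⟨w', hw', hwc', hwf'⟩ := hf' b hb
      have heq : EqOn (fun z => deriv w (tc t z)) (fun z => deriv w' (tc t z)) B1 :=
        eqOn_of_ae (cont_deriv_tc ht hw) (cont_deriv_tc ht hw') (hwc.symm.trans hwc')
      have hopen : IsOpen (tc t '' B1) := Helper53.Dil.om_open ht 0 1
      have hconv : Convex ℝ (tc t '' B1) := Helper53.Dil.om_convex t 0 1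
      have hd : EqOn (deriv (fun u => w u - w' u)) 0 (tc t '' B1) := by
        rintro _ ⟨z, hz, rfl⟩
        have h1 := (hw (tc t z) ⟨z, hz, rfl⟩).differentiableAt (hopen.mem_nhds ⟨z, hz, rfl⟩)
        have h2 := (hw' (tc t z) ⟨z, hz, rfl⟩).differentiableAt (hopen.mem_nhds ⟨z, hz, rfl⟩)
        rw [deriv_fun_sub h1 h2]
        simpa [sub_eq_zero] using heq hz
      obtain ⟨a, ha⟩ := hopen.exists_is_const_of_deriv_eq_zero hconv.isPreconnected
        (hw.sub hw') hd
      refine ⟨a.re, fun x hx => ?_⟩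
      have hbx : b x ∈ B1 := by rw [← hb.2]; exact b.map_source hx
      have h1 := hwf (b x) hbx
      have h2 := hwf' (b x) hbx
      rw [b.left_inv hx] at h1 h2
      have h3 := congrArg Complex.re (ha (tc t (b x)) ⟨_, hbx, rfl⟩)
      simp only [Pi.sub_apply, Complex.sub_re] at h3
      linarith
    obtain ⟨hc, ho⟩ := hconn X D
    obtain ⟨x0, hx0⟩ := hc.nonempty
    refine ⟨f x0 - f' x0, fun x hx => ?_⟩
    have hpre := hc.isPreconnected
    by_contra hne
    have hopen1 : IsOpen {y | y ∉ D.cone ∧ f y - f' y = f x0 - f' x0} := by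
      rw [isOpen_iff_mem_nhds]
      rintro y ⟨hy, hyf⟩
      obtain ⟨b, hb, hyb, -, -⟩ := hball X D y hy univ univ_mem
      obtain ⟨k, hk⟩ := hloc b hb
      filter_upwards [b.open_source.mem_nhds hyb] with z hz
      exact ⟨hb.1.1 z hz, by rw [hk z hz, ← hk y hyb, hyf]⟩
    have hopen2 : IsOpen {y | y ∉ D.cone ∧ f y - f' y ≠ f x0 - f' x0} := by
      rw [isOpen_iff_mem_nhds]
      rintro y ⟨hy, hyf⟩
      obtain ⟨b, hb, hyb, -, -⟩ := hball X D y hy univ univ_mem
      obtain ⟨k, hk⟩ := hloc b hb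
      filter_upwards [b.open_source.mem_nhds hyb] with z hz
      exact ⟨hb.1.1 z hz, by rw [hk z hz, ← hk y hyb]; exact hyf⟩
    obtain ⟨y, -, ⟨-, h1⟩, ⟨-, h2⟩⟩ := hpre _ _ hopen1 hopen2
      (fun y hy => (em (f y - f' y = f x0 - f' x0)).imp (fun h => ⟨hy, h⟩) (fun h => ⟨hy, h⟩))
      ⟨x0, hx0, hx0, rfl⟩ ⟨x, hx, hx, hne⟩
    exact h2 h1
  · intro t t' c c' f f' k ht ht' hf hf' hk
    -- local computation
    have hloc : ∀ b, D.IsBall b → ∀ᵐ z ∂(volume.restrict B1),
        (R.loc b c z).re = (R.loc b c' z).re ∧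
          (t * R.loc b c z).re = (t' * R.loc b c' z).re := by
      intro b hb
      obtain ⟨w, hw, hwc, hwf⟩ := hf b hb
      obtain ⟨w', hw', hwc', hwf'⟩ := hf' b hb
      filter_upwards [hwc, hwc', ae_restrict_mem (μ := volume) (s := B1) measurableSet_ball]
        with z hz hz' hzB
      have key : ∀ v : ℂ, (deriv w (tc t z) * tc t v).re = (deriv w' (tc t' z) * tc t' v).re := by
        intro v
        have h1 := hasDeriv_re ht hw hzB v
        have h2 := hasDeriv_re ht' hw' hzB v
        have h3 : (fun s : ℝ => (w (tc t (z + s * v))).re) =ᶠ[𝓝 0]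
            fun s : ℝ => (w' (tc t' (z + s * v))).re + k := by
          have h4 : ∀ᶠ s : ℝ in 𝓝 0, z + s * v ∈ B1 := by
            have h5 : Continuous fun s : ℝ => z + s * v := by fun_prop
            apply h5.continuousAt.eventually_mem
            refine (isOpen_ball (x := (0 : ℂ)) (ε := 1)).mem_nhds ?_
            have h6 : z + ((0 : ℝ) : ℂ) * v = z := by simp
            rw [h6]
            exact hzB
          filter_upwards [h4] with s hs
          have hreg : b.symm (z + s * v) ∉ D.cone := by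
            apply hb.1.1
            apply b.map_target
            rw [hb.2]; exact hs
          have h6 := hwf _ hs
          have h7 := hwf' _ hs
          have h8 := hk _ hreg
          linarith
        exact (h1.congr_of_eventuallyEq h3.symm).unique (h2.add_const k)
      have k1 := key 1
      have k2 := key Complex.I
      rw [tc_one, tc_one, mul_one, mul_one] at k1
      rw [tc_I, tc_I] at k2
      rw [hz, hz', mul_comm t, mul_comm t']
      exact ⟨k1, k2⟩
    have hr : ∀ (b : OpenPartialHomeomorph X ℂ) (a : ℂ) (g : X → ℂ) (z : ℂ),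
        R.loc b (fun x => a * g x + (starRingEnd ℂ) (a * g x)) z =
          a * R.loc b g z + (starRingEnd ℂ) (a * R.loc b g z) := by
      intro b a g z
      simp only [DilationSurface.Ref.loc, map_mul, Complex.conj_ofReal]
      ring
    have hJ : ∀ (a : ℂ) (g : R.H), ((a • g + A.J.c (a • g) : R.H) : X → ℂ) =ᵐ[R.mu]
        fun x => a * g x + (starRingEnd ℂ) (a * g x) := by
      intro a g
      filter_upwards [Lp.coeFn_add (a • g) (A.J.c (a • g)), Lp.coeFn_smul a g, hA.2.2 (a • g)]
        with x h1 h2 h3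
      rw [h1, Pi.add_apply, h3, h2]
      rfl
    have hmain : ∀ (a a' : ℂ), (∀ b, D.IsBall b → ∀ᵐ z ∂(volume.restrict B1),
        (a * R.loc b c z).re = (a' * R.loc b c' z).re) →
        a • c + A.J.c (a • c) = a' • c' + A.J.c (a' • c') := by
      intro a a' h
      apply Lp.ext
      refine (hJ a c).trans (EventuallyEq.trans ?_ (hJ a' c').symm)
      apply (hlocl X D R).2
      intro b hb
      filter_upwards [h b hb] with z hz
      rw [hr, hr]
      exact add_conj_eq hz
    refine ⟨?_, ?_⟩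
    · have := hmain 1 1 (fun b hb => (hloc b hb).mono fun z hz => by
        rw [one_mul, one_mul]; exact hz.1)
      rwa [one_smul, one_smul] at this
    · exact hmain t t' (fun b hb => (hloc b hb).mono fun z hz => hz.2)

end Pool.Agent.Helper74.Dil
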